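import Pool.Agent.H33.RD.Defs

/-!
# The inner product on the group algebra; the moment trick
-/

set_option autoImplicit false
set_option linter.unusedSectionVars false
open scoped Pointwise

namespace Pool.Agent.H95.RD

open MonoidAlgebra

variable {G : Type} [Group G]

/-- inner product on the group algebra -/
noncomputable def ip (a b : MonoidAlgebra ℝ G) : ℝ :=
  ∑ x ∈ a.coeff.support, a.coeff x * b.coeff x

/-- squared norm -/
noncomputable def nrm (a : MonoidAlgebra ℝ G) : ℝ := ip a a

/-- adjoint -/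
noncomputable def adj (a : MonoidAlgebra ℝ G) : MonoidAlgebra ℝ G := mapDomain (fun x => x⁻¹) a

lemma ip_eq {a b : MonoidAlgebra ℝ G} {s : Finset G} (h : a.coeff.support ⊆ s) :
    ip a b = ∑ x ∈ s, a.coeff x * b.coeff x := by
  apply Finset.sum_subset h
  intro x _ hx
  rw [Finsupp.notMem_support_iff.mp hx, zero_mul]

lemma ip_comm (a b : MonoidAlgebra ℝ G) : ip a b = ip b a := by
  classical
  rw [ip_eq (s := a.coeff.support ∪ b.coeff.support) Finset.subset_union_left,
    ip_eq (s := a.coeff.support ∪ b.coeff.support) Finset.subset_union_right]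
  apply Finset.sum_congr rfl
  intro x _
  ring

lemma ip_add_right (a b c : MonoidAlgebra ℝ G) : ip a (b + c) = ip a b + ip a c := by
  unfold ip
  rw [← Finset.sum_add_distrib]
  apply Finset.sum_congr rfl
  intro x _
  rw [coeff_add, Finsupp.add_apply]
  ring

lemma ip_add_left (a b c : MonoidAlgebra ℝ G) : ip (a + b) c = ip a c + ip b c := by
  rw [ip_comm, ip_add_right, ip_comm c a, ip_comm c b]

lemma ip_zero_left (b : MonoidAlgebra ℝ G) : ip 0 b = 0 := by
  simp [ip]

lemma ip_zero_right (b : MonoidAlgebra ℝ G) : ip b 0 = 0 := by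
  simp [ip]

lemma ip_single_left (x : G) (r : ℝ) (b : MonoidAlgebra ℝ G) : ip (single x r) b = r * b.coeff x := by
  classical
  rw [ip_eq (s := {x}) (by rw [coeff_single]; exact Finsupp.support_single_subset)]
  simp

lemma ip_single_right (x : G) (r : ℝ) (b : MonoidAlgebra ℝ G) : ip b (single x r) = r * b.coeff x := by
  rw [ip_comm, ip_single_left]

lemma nrm_nonneg (a : MonoidAlgebra ℝ G) : 0 ≤ nrm a := by
  unfold nrm ip
  exact Finset.sum_nonneg fun x _ => mul_self_nonneg _

lemma nrm_eq_zero {a : MonoidAlgebra ℝ G} (h : nrm a = 0) : a = 0 := by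
  unfold nrm ip at h
  rw [Finset.sum_eq_zero_iff_of_nonneg (fun x _ => mul_self_nonneg _)] at h
  ext x
  by_cases hx : x ∈ a.coeff.support
  · simpa using h x hx
  · simpa using hx

/-- Cauchy-Schwarz -/
lemma ip_sq_le (a b : MonoidAlgebra ℝ G) : ip a b ^ 2 ≤ nrm a * nrm b := by
  classical
  set s := a.coeff.support ∪ b.coeff.support
  rw [nrm, nrm, ip_eq (a := a) (b := b) (s := s) Finset.subset_union_left,
    ip_eq (a := a) (b := a) (s := s) Finset.subset_union_left,
    ip_eq (a := b) (b := b) (s := s) Finset.subset_union_right]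
  have h := Finset.sum_mul_sq_le_sq_mul_sq s (fun x => a.coeff x) (fun x => b.coeff x)
  simpa [sq] using h

lemma adj_add (a b : MonoidAlgebra ℝ G) : adj (a + b) = adj a + adj b := mapDomain_add _ _ _

lemma adj_single (x : G) (r : ℝ) : adj (single x r) = single x⁻¹ r := mapDomain_single

lemma adj_zero : adj (0 : MonoidAlgebra ℝ G) = 0 := mapDomain_zero _

/-- adjointness -/
lemma ip_mul_left (a b c : MonoidAlgebra ℝ G) : ip (a * b) c = ip b (adj a * c) := by
  induction a using MonoidAlgebra.induction_linear with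
  | zero => rw [zero_mul, adj_zero, zero_mul, ip_zero_left, ip_zero_right]
  | add a a' ha ha' => rw [add_mul, ip_add_left, ha, ha', adj_add, add_mul, ip_add_right]
  | single x r =>
    induction b using MonoidAlgebra.induction_linear with
    | zero => rw [mul_zero, ip_zero_left, ip_zero_left]
    | add b b' hb hb' => rw [mul_add, ip_add_left, hb, hb', ip_add_left]
    | single y s =>
      rw [single_mul_single, ip_single_left, ip_single_left, adj_single, coeff_single_mul_apply,
        inv_inv]
      ring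

lemma adj_mul (a b : MonoidAlgebra ℝ G) : adj (a * b) = adj b * adj a := by
  induction a using MonoidAlgebra.induction_linear with
  | zero => rw [zero_mul, adj_zero, mul_zero]
  | add a a' ha ha' => rw [add_mul, adj_add, ha, ha', adj_add, mul_add]
  | single x r =>
    induction b using MonoidAlgebra.induction_linear with
    | zero => rw [mul_zero, adj_zero, zero_mul]
    | add b b' hb hb' => rw [mul_add, adj_add, hb, hb', adj_add, add_mul]
    | single y s =>
      rw [single_mul_single, adj_single, adj_single, adj_single, single_mul_single, mul_inv_rev,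
        mul_comm s r]

lemma adj_adj (a : MonoidAlgebra ℝ G) : adj (adj a) = a := by
  induction a using MonoidAlgebra.induction_linear with
  | zero => rw [adj_zero, adj_zero]
  | add a a' ha ha' => rw [adj_add, adj_add, ha, ha']
  | single x r => rw [adj_single, adj_single, inv_inv]

lemma adj_one : adj (1 : MonoidAlgebra ℝ G) = 1 := by
  rw [one_def, adj_single, inv_one]

lemma adj_pow {c : MonoidAlgebra ℝ G} (hc : adj c = c) (n : ℕ) : adj (c ^ n) = c ^ n := by
  induction n with
  | zero => rw [pow_zero, adj_one]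
  | succ n ih => rw [pow_succ, adj_mul, ih, hc, ← pow_succ, ← pow_succ']

lemma adj_self (a : MonoidAlgebra ℝ G) : adj (adj a * a) = adj a * a := by
  rw [adj_mul, adj_adj]

lemma nrm_one : nrm (1 : MonoidAlgebra ℝ G) = 1 := by
  rw [nrm, one_def, ip_single_left, coeff_single, Finsupp.single_eq_same]
  norm_num

/-- first step of the moment trick -/
lemma moment_one (a b : MonoidAlgebra ℝ G) : nrm (a * b) ^ 2 ≤ nrm b * nrm (adj a * a * b) := by
  have h : nrm (a * b) = ip b (adj a * a * b) := by
    rw [nrm, ip_mul_left, mul_assoc]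
  rw [h]
  exact ip_sq_le _ _

/-- iteration -/
lemma moment_pow {c : MonoidAlgebra ℝ G} (hc : adj c = c) (b : MonoidAlgebra ℝ G) (j : ℕ) :
    nrm (c * b) ^ (2 ^ j) * nrm b ≤ nrm (c ^ (2 ^ j) * b) * nrm b ^ (2 ^ j) := by
  induction j with
  | zero => simp
  | succ j ih =>
    by_cases hb : nrm b = 0
    · rw [nrm_eq_zero hb]
      simp [nrm, ip_zero_left]
    have hb0 : 0 < nrm b := lt_of_le_of_ne (nrm_nonneg b) (Ne.symm hb)
    have h1 := moment_one (c ^ (2 ^ j)) b
    rw [adj_pow hc, ← pow_add, ← two_mul, ← pow_succ'] at h1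
    have h2 : (nrm (c * b) ^ (2 ^ j) * nrm b) ^ 2 ≤ (nrm (c ^ (2 ^ j) * b) * nrm b ^ (2 ^ j)) ^ 2 :=
      pow_le_pow_left₀ (by have := nrm_nonneg (c * b); positivity) ih 2
    have h3 : (nrm (c ^ (2 ^ j) * b) * nrm b ^ (2 ^ j)) ^ 2 ≤
        nrm b * nrm (c ^ (2 ^ (j + 1)) * b) * nrm b ^ (2 ^ (j + 1)) := by
      rw [mul_pow, ← pow_mul, ← pow_succ]
      exact mul_le_mul_of_nonneg_right h1 (by positivity)
    have h4 : (nrm (c * b) ^ (2 ^ j) * nrm b) ^ 2 =
        nrm b * (nrm (c * b) ^ (2 ^ (j + 1)) * nrm b) := by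
      rw [mul_pow, ← pow_mul, ← pow_succ]
      ring
    rw [h4] at h2
    have h5 := h2.trans h3
    rw [mul_assoc] at h5
    exact le_of_mul_le_mul_left h5 hb0

/-- the moment inequality -/
lemma moment (a b : MonoidAlgebra ℝ G) (j : ℕ) :
    nrm (a * b) ^ (2 ^ (j + 1)) * nrm b ≤
      nrm ((adj a * a) ^ (2 ^ j) * b) * nrm b ^ (2 ^ (j + 1)) := by
  have h1 := moment_one a b
  have h2 := moment_pow (adj_self a) b j
  have h3 : nrm (a * b) ^ (2 ^ (j + 1)) ≤ (nrm b * nrm (adj a * a * b)) ^ (2 ^ j) := by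
    rw [pow_succ', pow_mul]
    exact pow_le_pow_left₀ (by positivity) h1 _
  calc nrm (a * b) ^ (2 ^ (j + 1)) * nrm b ≤ (nrm b * nrm (adj a * a * b)) ^ (2 ^ j) * nrm b :=
        mul_le_mul_of_nonneg_right h3 (nrm_nonneg b)
    _ = nrm b ^ (2 ^ j) * (nrm (adj a * a * b) ^ (2 ^ j) * nrm b) := by rw [mul_pow]; ring
    _ ≤ nrm b ^ (2 ^ j) * (nrm ((adj a * a) ^ (2 ^ j) * b) * nrm b ^ (2 ^ j)) :=
        mul_le_mul_of_nonneg_left h2 (pow_nonneg (nrm_nonneg b) _)
    _ = _ := by rw [pow_succ 2 j, pow_mul]; ring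

/-- norm of powers of `a^* a` from the operator bound -/
lemma nrm_pow_le {a : MonoidAlgebra ℝ G} {φ : ℝ} (hφ : 0 ≤ φ)
    (h1 : ∀ x, nrm (a * x) ≤ φ * nrm x) (h2 : ∀ x, nrm (adj a * x) ≤ φ * nrm x) (m : ℕ) :
    nrm ((adj a * a) ^ m) ≤ φ ^ (2 * m) := by
  have key : ∀ m : ℕ, ∀ x, nrm ((adj a * a) ^ m * x) ≤ φ ^ (2 * m) * nrm x := by
    intro m
    induction m with
    | zero => intro x; simp
    | succ m ih =>
      intro x
      rw [pow_succ, mul_assoc]
      refine (ih _).trans ?_
      rw [mul_assoc]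
      have h3 := (h2 (a * x)).trans (mul_le_mul_of_nonneg_left (h1 x) hφ)
      calc φ ^ (2 * m) * nrm (adj a * (a * x)) ≤ φ ^ (2 * m) * (φ * (φ * nrm x)) :=
            mul_le_mul_of_nonneg_left h3 (by positivity)
        _ = _ := by ring
  have := key m 1
  rwa [mul_one, nrm_one, mul_one] at this

/-! ### Push forward -/

section map
variable {G' : Type} [Group G']

/-- push forward -/
noncomputable def pf (π : G →* G') : MonoidAlgebra ℝ G →+* MonoidAlgebra ℝ G' :=
  mapDomainRingHom ℝ π

lemma pf_single (π : G →* G') (x : G) (r : ℝ) : pf π (single x r) = single (π x) r :=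
  mapDomain_single

lemma pf_adj (π : G →* G') (a : MonoidAlgebra ℝ G) : pf π (adj a) = adj (pf π a) := by
  induction a using MonoidAlgebra.induction_linear with
  | zero => rw [adj_zero, map_zero, adj_zero]
  | add a a' ha ha' => rw [adj_add, map_add, ha, ha', map_add, adj_add]
  | single x r => rw [adj_single, pf_single, pf_single, adj_single, map_inv]

lemma ip_sum_left {ι : Type*} (s : Finset ι) (f : ι → MonoidAlgebra ℝ G) (b : MonoidAlgebra ℝ G) :
    ip (∑ i ∈ s, f i) b = ∑ i ∈ s, ip (f i) b := by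
  classical
  induction s using Finset.induction_on with
  | empty => simp [ip_zero_left]
  | insert i s hi ih => rw [Finset.sum_insert hi, Finset.sum_insert hi, ip_add_left, ih]

lemma ip_sum_right {ι : Type*} (s : Finset ι) (f : ι → MonoidAlgebra ℝ G) (b : MonoidAlgebra ℝ G) :
    ip b (∑ i ∈ s, f i) = ∑ i ∈ s, ip b (f i) := by
  rw [ip_comm, ip_sum_left]
  apply Finset.sum_congr rfl
  intro i _
  rw [ip_comm]

lemma eq_sum_single (a : MonoidAlgebra ℝ G) :
    a = ∑ x ∈ a.coeff.support, single x (a.coeff x) := (sum_coeff_single a).symm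

open Classical in
/-- the norm of a push forward -/
lemma nrm_pf (π : G →* G') (a : MonoidAlgebra ℝ G) :
    nrm (pf π a) = ∑ x ∈ a.coeff.support, ∑ y ∈ a.coeff.support,
      if π x = π y then a.coeff x * a.coeff y else 0 := by
  have h : pf π a = ∑ x ∈ a.coeff.support, single (π x) (a.coeff x) := by
    conv_lhs => rw [eq_sum_single a]
    rw [map_sum]
    apply Finset.sum_congr rfl
    intro x _
    exact pf_single π x _
  rw [nrm, h, ip_sum_left]
  apply Finset.sum_congr rfl
  intro x _
  rw [ip_sum_right]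
  apply Finset.sum_congr rfl
  intro y _
  rw [ip_single_left, coeff_single, Finsupp.single_apply]
  by_cases hxy : π x = π y
  · rw [if_pos hxy, if_pos hxy.symm]
  · rw [if_neg hxy, if_neg (Ne.symm hxy), mul_zero]

lemma nrm_id (a : MonoidAlgebra ℝ G) : pf (MonoidHom.id G) a = a := by
  unfold pf
  rw [mapDomainRingHom_id]
  rfl

/-- two push forwards with the same coincidences on the support have the same norm -/
lemma nrm_pf_congr {G'' : Type} [Group G''] (π : G →* G') (π' : G →* G'') (a : MonoidAlgebra ℝ G)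
    (h : ∀ x ∈ a.coeff.support, ∀ y ∈ a.coeff.support, (π x = π y ↔ π' x = π' y)) :
    nrm (pf π a) = nrm (pf π' a) := by
  classical
  rw [nrm_pf, nrm_pf]
  apply Finset.sum_congr rfl
  intro x hx
  apply Finset.sum_congr rfl
  intro y hy
  by_cases hxy : π x = π y
  · rw [if_pos hxy, if_pos ((h x hx y hy).mp hxy)]
  · rw [if_neg hxy, if_neg (fun h' => hxy ((h x hx y hy).mpr h'))]

lemma nrm_pf_inj (π : G →* G') (a : MonoidAlgebra ℝ G)
    (h : ∀ x ∈ a.coeff.support, ∀ y ∈ a.coeff.support, π x = π y → x = y) :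
    nrm (pf π a) = nrm a := by
  rw [nrm_pf_congr π (MonoidHom.id G) a, nrm_id]
  intro x hx y hy
  exact ⟨fun h' => h x hx y hy h', fun h' => congrArg π h'⟩

lemma support_pf (π : G →* G') (a : MonoidAlgebra ℝ G) :
    ((pf π a).coeff.support : Set G') ⊆ π '' (a.coeff.support : Set G) := by
  classical
  have h : (pf π a).coeff = Finsupp.mapDomain π a.coeff := rfl
  rw [h]
  have h2 := Finsupp.mapDomain_support (f := (π : G → G')) (s := a.coeff)
  intro x hx
  have h3 := h2 hx
  rw [Finset.mem_image] at h3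
  obtain ⟨y, hy, rfl⟩ := h3
  exact ⟨y, hy, rfl⟩

/-- lifting -/
lemma exists_lift (π : G →* G') (B : Set G) (a' : MonoidAlgebra ℝ G')
    (ha : (a'.coeff.support : Set G') ⊆ π '' B) :
    ∃ a : MonoidAlgebra ℝ G, (a.coeff.support : Set G) ⊆ B ∧ pf π a = a' := by
  classical
  have ha' : ∀ x ∈ a'.coeff.support, ∃ y, y ∈ B ∧ π y = x := fun x hx => ha hx
  choose! s hs using ha'
  refine ⟨∑ x ∈ a'.coeff.support, single (s x) (a'.coeff x), ?_, ?_⟩
  · intro y hy
    by_contra hyB
    have : (∑ x ∈ a'.coeff.support, single (s x) (a'.coeff x)).coeff y = 0 := by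
      rw [coeff_sum, Finsupp.finsetSum_apply]
      apply Finset.sum_eq_zero
      intro x hx
      rw [coeff_single, Finsupp.single_apply, if_neg]
      rintro rfl
      exact hyB (hs x hx).1
    rw [Finset.mem_coe, Finsupp.mem_support_iff] at hy
    exact hy this
  · rw [map_sum]
    conv_rhs => rw [eq_sum_single a']
    apply Finset.sum_congr rfl
    intro x hx
    rw [pf_single, (hs x hx).2]

end map

end Pool.Agent.H95.RD
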