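import Pool.Agent.H95.RD.Step

/-!
# Assembly: an infinite torsion group with property RD
-/

set_option autoImplicit false
set_option linter.unusedSectionVars false
open scoped Pointwise

namespace Pool.Agent.H95.RD

open MonoidAlgebra Pool.Agent.H33.RD

section construction

variable {F T : Type} [Group F] [Group T]

/-- the invariants of the construction -/
def Inv (S : Finset F) (φ : F →* T) (C : ℝ) (K : Subgroup F) : Prop :=
  K ≤ φ.ker ∧ ∃ (G : Type) (_ : Group G) (π : F →* G), Function.Surjective π ∧ π.ker = K ∧ Geo G ∧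
    RDm G (π '' (S : Set F)) (fun r => C * (1 + (r : ℝ)) ^ 7)

lemma Inv.mono {S : Finset F} {φ : F →* T} {C C' : ℝ} {K : Subgroup F} (h : Inv S φ C K)
    (hCC : C ≤ C') : Inv S φ C' K := by
  obtain ⟨h1, G, _, π, h2, h3, h4, h5⟩ := h
  exact ⟨h1, G, _, π, h2, h3, h4, h5.mono fun n => by gcongr⟩

/-- one filling -/
lemma fill_step (hfill : ∀ (H : Type) [Group H], Geo H → Filling H) (S : Finset F) (φ : F →* T)
    (hT : Monoid.IsTorsion T) {C C' : ℝ} (hC : 1 ≤ C) (hCC : C < C') {K : Subgroup F}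
    (hK : Inv S φ C K) (f : F) :
    ∃ K' : Subgroup F, K ≤ K' ∧ (∃ n : ℕ, 0 < n ∧ f ^ n ∈ K') ∧ Inv S φ C' K' := by
  classical
  by_cases hf : ∃ n : ℕ, 0 < n ∧ f ^ n ∈ K
  · exact ⟨K, le_rfl, hf, hK.mono hCC.le⟩
  obtain ⟨hKφ, G, _, π, hπs, hπk, hGeo, hRD⟩ := hK
  have hg : ¬ IsOfFinOrder (π f) := by
    intro h
    obtain ⟨n, hn, hn'⟩ := isOfFinOrder_iff_pow_eq_one.mp h
    exact hf ⟨n, hn, by rw [← hπk, MonoidHom.mem_ker, map_pow, hn']⟩
  obtain ⟨A, hA⟩ := hfill G hGeo (S.image π) (π f) hg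
  obtain ⟨R, hR⟩ := step A hC hCC
  have hord : 0 < orderOf (φ f) := orderOf_pos_iff.mpr (hT (φ f))
  obtain ⟨n, hn, hmn, hGeo', hker, hRD'⟩ := hA (orderOf (φ f)) (R + R) hord
  set N := Subgroup.normalClosure {π f ^ n} with hN
  set ρ : G →* G ⧸ N := QuotientGroup.mk' N with hρ
  have hcomap : ∀ x : F, x ∈ (ρ.comp π).ker ↔ π x ∈ N := by
    intro x
    rw [MonoidHom.mem_ker, MonoidHom.comp_apply, hρ, QuotientGroup.mk'_apply,
      QuotientGroup.eq_one_iff]
  refine ⟨(ρ.comp π).ker, ?_, ⟨n, hn, ?_⟩, ?_, G ⧸ N, inferInstance, ρ.comp π, ?_, rfl, hGeo', ?_⟩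
  · intro x hx
    rw [hcomap]
    have : π x = 1 := by
      rw [← MonoidHom.mem_ker, hπk]
      exact hx
    rw [this]
    exact N.one_mem
  · rw [hcomap, map_pow]
    exact Subgroup.subset_normalClosure rfl
  · -- kernel inside ker φ
    intro x hx
    rw [hcomap] at hx
    have hmap : N = (Subgroup.normalClosure {f ^ n}).map π := by
      rw [Subgroup.map_normalClosure _ _ hπs, Set.image_singleton, map_pow]
    rw [hmap] at hx
    obtain ⟨y, hy, hyx⟩ := hx
    have h1 : Subgroup.normalClosure {f ^ n} ≤ φ.ker := by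
      apply Subgroup.normalClosure_le_normal
      rw [Set.singleton_subset_iff]
      show f ^ n ∈ φ.ker
      rw [MonoidHom.mem_ker, map_pow]
      exact orderOf_dvd_iff_pow_eq_one.mp hmn
    have h2 : y⁻¹ * x ∈ K := by
      rw [← hπk, MonoidHom.mem_ker, map_mul, map_inv, hyx, inv_mul_cancel]
    have h3 := hKφ h2
    rw [MonoidHom.mem_ker, map_mul, map_inv, (h1 hy : φ y = 1)] at h3
    rw [MonoidHom.mem_ker]
    simpa using h3
  · exact (QuotientGroup.mk'_surjective N).comp hπs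
  · have h1 : (ρ.comp π) '' (S : Set F) = ρ '' (π '' (S : Set F)) := by
      rw [Set.image_image]; rfl
    rw [h1]
    apply hR G (G ⧸ N) ρ (π '' (S : Set F)) hRD
    · have h2 := RDm_of_RDsq hRD'
      rw [Finset.coe_image] at h2
      exact h2
    · intro x hx y hy hxy
      have h3 : x⁻¹ * y ∈ N := by
        rw [← QuotientGroup.eq]
        exact hxy
      have h4 : x⁻¹ * y ∈ ball ((S.image π : Finset G) : Set G) (R + R) := by
        rw [Finset.coe_image]
        exact mul_mem_ball (inv_mem_ball hx) hy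
      have h5 := hker _ h3 h4
      exact (inv_mul_eq_one.mp h5)

/-- the first filling -/
lemma first_step (hfill : ∀ (H : Type) [Group H], Geo H → Filling H) (S : Finset F) (φ : F →* T)
    (hT : Monoid.IsTorsion T) (hF : Geo F) (f : F) (hf : ¬ IsOfFinOrder f) :
    ∃ C : ℝ, 1 ≤ C ∧ ∃ K : Subgroup F, Inv S φ C K := by
  obtain ⟨A, hA⟩ := hfill F hF S f hf
  have hord : 0 < orderOf (φ f) := orderOf_pos_iff.mpr (hT (φ f))
  obtain ⟨n, hn, hmn, hGeo', hker, hRD'⟩ := hA (orderOf (φ f)) 0 hord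
  set N := Subgroup.normalClosure {f ^ n} with hN
  refine ⟨max A 1, le_max_right _ _, N, ?_, F ⧸ N, inferInstance, QuotientGroup.mk' N,
    QuotientGroup.mk'_surjective N, QuotientGroup.ker_mk' N, hGeo', ?_⟩
  · apply Subgroup.normalClosure_le_normal
    rw [Set.singleton_subset_iff]
    show f ^ n ∈ φ.ker
    rw [MonoidHom.mem_ker, map_pow]
    exact orderOf_dvd_iff_pow_eq_one.mp hmn
  · apply (RDm_of_RDsq hRD').mono
    intro r
    have h1 : (0 : ℝ) ≤ r := Nat.cast_nonneg r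
    have h2 : A ≤ max A 1 := le_max_left _ _
    have h3 : (1 : ℝ) ≤ max A 1 := le_max_right _ _
    calc A * (1 + (r : ℝ)) ^ 6 ≤ max A 1 * (1 + (r : ℝ)) ^ 6 := by gcongr
      _ ≤ max A 1 * (1 + (r : ℝ)) ^ 7 := by
          apply mul_le_mul_of_nonneg_left _ (by linarith)
          exact pow_le_pow_right₀ (by linarith) (by norm_num)

/-- the constants -/
noncomputable def Cs (C : ℝ) (i : ℕ) : ℝ := C * (2 - (1 / 2) ^ i)

lemma Cs_zero (C : ℝ) : Cs C 0 = C := by unfold Cs; norm_num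

lemma Cs_lt {C : ℝ} (hC : 1 ≤ C) (i : ℕ) : Cs C i < Cs C (i + 1) := by
  unfold Cs
  have h : (0 : ℝ) < (1 / 2) ^ i := by positivity
  rw [pow_succ]
  nlinarith

lemma one_le_Cs {C : ℝ} (hC : 1 ≤ C) (i : ℕ) : 1 ≤ Cs C i := by
  unfold Cs
  have h : (1 / 2 : ℝ) ^ i ≤ 1 := pow_le_one₀ (by norm_num) (by norm_num)
  nlinarith

lemma Cs_le {C : ℝ} (hC : 1 ≤ C) (i : ℕ) : Cs C i ≤ 2 * C := by
  unfold Cs
  have h : (0 : ℝ) < (1 / 2) ^ i := by positivity
  nlinarith

/-- the sequence of kernels -/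
lemma exists_seq (hfill : ∀ (H : Type) [Group H], Geo H → Filling H) (S : Finset F) (φ : F →* T)
    (hT : Monoid.IsTorsion T) {C : ℝ} (hC : 1 ≤ C) {K₀ : Subgroup F} (h0 : Inv S φ C K₀)
    (f : ℕ → F) :
    ∃ K : ℕ → Subgroup F, (∀ i, Inv S φ (Cs C i) (K i)) ∧ (∀ i, K i ≤ K (i + 1)) ∧
      ∀ i, ∃ n : ℕ, 0 < n ∧ f i ^ n ∈ K (i + 1) := by
  have hstep : ∀ i : ℕ, ∀ K : {K : Subgroup F // Inv S φ (Cs C i) K},
      ∃ K' : {K : Subgroup F // Inv S φ (Cs C (i + 1)) K}, K.1 ≤ K'.1 ∧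
        ∃ n : ℕ, 0 < n ∧ f i ^ n ∈ K'.1 := by
    rintro i ⟨K, hK⟩
    obtain ⟨K', h1, h2, h3⟩ := fill_step hfill S φ hT (one_le_Cs hC i) (Cs_lt hC i) hK (f i)
    exact ⟨⟨K', h3⟩, h1, h2⟩
  choose nxt hn1 hn2 using hstep
  let Ks : (i : ℕ) → {K : Subgroup F // Inv S φ (Cs C i) K} := fun i =>
    Nat.rec ⟨K₀, by rw [Cs_zero]; exact h0⟩ (fun i K => nxt i K) i
  exact ⟨fun i => (Ks i).1, fun i => (Ks i).2, fun i => hn1 i (Ks i), fun i => hn2 i (Ks i)⟩

/-- membership in the union -/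
lemma mem_union {K : ℕ → Subgroup F} (hK : ∀ i, K i ≤ K (i + 1)) {x : F} :
    x ∈ (⨆ i, K i) ↔ ∃ i, x ∈ K i :=
  Subgroup.mem_iSup_of_directed (monotone_nat_of_le_succ hK).directed_le

/-- rapid decay passes to the limit -/
lemma limit_RD (S : Finset F) (φ : F →* T) {C : ℝ} (hC : 1 ≤ C) {K : ℕ → Subgroup F}
    (hinv : ∀ i, Inv S φ (Cs C i) (K i)) (hK : ∀ i, K i ≤ K (i + 1))
    {G : Type} [Group G] (π : F →* G) (hπ : Function.Surjective π) (hk : π.ker = ⨆ i, K i) :
    RDm G (π '' (S : Set F)) (fun r => (2 * C) * (1 + (r : ℝ)) ^ 7) := by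
  classical
  intro n a' b' ha'
  obtain ⟨a, ha, rfl⟩ := exists_lift π (ball (S : Set F) n) a' (by rw [image_ball]; exact ha')
  obtain ⟨b, -, rfl⟩ := exists_lift π Set.univ b' (by
    intro x _
    obtain ⟨y, hy⟩ := hπ x
    exact ⟨y, Set.mem_univ y, hy⟩)
  -- find a stage that sees all the coincidences
  set E : Finset F := a.coeff.support ∪ b.coeff.support ∪ (a * b).coeff.support with hE
  obtain ⟨i, hi⟩ : ∃ i, ∀ x ∈ E, ∀ y ∈ E, π x = π y → x⁻¹ * y ∈ K i := by
    have h1 : ∀ p : F × F, ∃ i, π p.1 = π p.2 → p.1⁻¹ * p.2 ∈ K i := by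
      intro p
      by_cases hp : π p.1 = π p.2
      · have : p.1⁻¹ * p.2 ∈ ⨆ i, K i := by
          rw [← hk, MonoidHom.mem_ker, map_mul, map_inv, hp, inv_mul_cancel]
        obtain ⟨i, hi⟩ := (mem_union hK).mp this
        exact ⟨i, fun _ => hi⟩
      · exact ⟨0, fun h => absurd h hp⟩
    choose j hj using h1
    refine ⟨(E ×ˢ E).sup j, fun x hx y hy hxy => ?_⟩
    have h2 : j (x, y) ≤ (E ×ˢ E).sup j := Finset.le_sup (Finset.mem_product.mpr ⟨hx, hy⟩)
    exact (monotone_nat_of_le_succ hK) h2 (hj (x, y) hxy)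
  obtain ⟨-, Gi, _, πi, hπi, hki, -, hRD⟩ := hinv i
  have hiff : ∀ x ∈ E, ∀ y ∈ E, (π x = π y ↔ πi x = πi y) := by
    intro x hx y hy
    constructor
    · intro h
      have h1 := hi x hx y hy h
      rw [← hki, MonoidHom.mem_ker, map_mul, map_inv] at h1
      exact inv_mul_eq_one.mp h1
    · intro h
      have h1 : x⁻¹ * y ∈ K i := by
        rw [← hki, MonoidHom.mem_ker, map_mul, map_inv, h, inv_mul_cancel]
      have h2 : x⁻¹ * y ∈ π.ker := by
        rw [hk]
        exact (mem_union hK).mpr ⟨i, h1⟩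
      rw [MonoidHom.mem_ker, map_mul, map_inv] at h2
      exact inv_mul_eq_one.mp h2
  have e1 : nrm (pf π a) = nrm (pf πi a) := by
    apply nrm_pf_congr
    intro x hx y hy
    exact hiff x (Finset.mem_union_left _ (Finset.mem_union_left _ hx)) y
      (Finset.mem_union_left _ (Finset.mem_union_left _ hy))
  have e2 : nrm (pf π b) = nrm (pf πi b) := by
    apply nrm_pf_congr
    intro x hx y hy
    exact hiff x (Finset.mem_union_left _ (Finset.mem_union_right _ hx)) y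
      (Finset.mem_union_left _ (Finset.mem_union_right _ hy))
  have e3 : nrm (pf π (a * b)) = nrm (pf πi (a * b)) := by
    apply nrm_pf_congr
    intro x hx y hy
    exact hiff x (Finset.mem_union_right _ hx) y (Finset.mem_union_right _ hy)
  rw [← map_mul, e3, e1, e2, map_mul]
  have hSp : Sp (pf πi a) (ball (πi '' (S : Set F)) n) := by
    rw [← image_ball]
    exact (support_pf πi a).trans (Set.image_mono ha)
  refine (hRD n _ (pf πi b) hSp).trans ?_
  have h1 := nrm_nonneg (pf πi a)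
  have h2 := nrm_nonneg (pf πi b)
  have h3 := Cs_le hC i
  have h4 : Cs C i * (1 + (n : ℝ)) ^ 7 ≤ 2 * C * (1 + (n : ℝ)) ^ 7 := by gcongr
  exact mul_le_mul_of_nonneg_right (mul_le_mul_of_nonneg_right h4 h1) h2

end construction

/-- Assembly. -/
theorem assemble
    (hfill : ∀ (H : Type) [Group H], Geo H → Filling H)
    (hfree : ∀ n : ℕ, Geo (FreeGroup (Fin n)))
    (hT : ∃ (T : Type) (_ : Group T), Infinite T ∧ Monoid.IsTorsion T ∧ Group.FG T) :
    ∃ (G : Type) (_ : Group G), Infinite G ∧ Monoid.IsTorsion G ∧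
      ∃ S : Finset G, Subgroup.closure (S : Set G) = ⊤ ∧
        ∃ C s : ℝ, ∀ n : ℕ, ∀ f g : G →₀ ℝ,
          (f.support : Set G) ⊆ ((S : Set G) ∪ (S : Set G)⁻¹ ∪ {1}) ^ n →
            ∀ F : Finset G,
              ∑ x ∈ F, (∑ y ∈ f.support, f y * g (y⁻¹ * x)) ^ 2 ≤
                C * (1 + (n : ℝ)) ^ s * (∑ y ∈ f.support, f y ^ 2) *
                  (∑ z ∈ g.support, g z ^ 2) := by
  classical
  obtain ⟨T, _, hTinf, hTtor, hTfg⟩ := hT
  -- a surjection from a free group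
  obtain ⟨k, φ, hφ⟩ : ∃ (k : ℕ) (φ : FreeGroup (Fin k) →* T), Function.Surjective φ := by
    obtain ⟨α, hα, φ, hφ⟩ := Group.fg_iff_exists_freeGroup_hom_surjective_finite.mp hTfg
    obtain ⟨k, ⟨e⟩⟩ := Finite.exists_equiv_fin α
    refine ⟨k, φ.comp (FreeGroup.freeGroupCongr e).symm.toMonoidHom, ?_⟩
    exact hφ.comp (FreeGroup.freeGroupCongr e).symm.surjective
  set F := FreeGroup (Fin k) with hF
  let S : Finset F := Finset.univ.image FreeGroup.of
  have hScl : Subgroup.closure (S : Set F) = ⊤ := by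
    have : (S : Set F) = Set.range (FreeGroup.of : Fin k → F) := by
      simp [S]
    rw [this]
    exact FreeGroup.closure_range_of _
  -- an element of infinite order
  have hFinf : Infinite F := Infinite.of_surjective φ hφ
  obtain ⟨f₀, hf₀⟩ : ∃ f : F, ¬ IsOfFinOrder f := by
    obtain ⟨x, hx⟩ := exists_ne (1 : F)
    refine ⟨x, fun h => hx ?_⟩
    obtain ⟨n, hn, hn'⟩ := isOfFinOrder_iff_pow_eq_one.mp h
    exact IsMulTorsionFree.pow_left_injective hn.ne' (by simpa using hn')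
  obtain ⟨C, hC, K₀, hK₀⟩ := first_step hfill S φ hTtor (hfree k) f₀ hf₀
  -- enumeration of the free group
  have hcount : Countable F := by
    rw [hF]
    infer_instance
  obtain ⟨f, hf⟩ := exists_surjective_nat F
  obtain ⟨K, hinv, hKmono, hKtor⟩ := exists_seq hfill S φ hTtor hC hK₀ f
  set L : Subgroup F := ⨆ i, K i with hL
  have hLn : L.Normal := by
    constructor
    intro x hx g
    obtain ⟨i, hi⟩ := (mem_union hKmono).mp hx
    obtain ⟨-, Gi, _, πi, -, hki, -, -⟩ := hinv i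
    have h1 : g * x * g⁻¹ ∈ K i := by
      rw [← hki, MonoidHom.mem_ker] at hi ⊢
      rw [map_mul, map_mul, hi, map_inv]
      simp
    exact (mem_union hKmono).mpr ⟨i, h1⟩
  have hLφ : L ≤ φ.ker := iSup_le fun i => (hinv i).1
  refine ⟨F ⧸ L, inferInstance, ?_, ?_, S.image (QuotientGroup.mk' L), ?_, 2 * C, 7, ?_⟩
  · have hs : Function.Surjective (QuotientGroup.lift L φ hLφ) :=
      QuotientGroup.lift_surjective_of_surjective L φ hφ hLφ
    exact Infinite.of_surjective _ hs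
  · intro x
    obtain ⟨y, rfl⟩ := QuotientGroup.mk'_surjective L x
    obtain ⟨i, rfl⟩ := hf y
    obtain ⟨n, hn, hn'⟩ := hKtor i
    rw [isOfFinOrder_iff_pow_eq_one]
    refine ⟨n, hn, ?_⟩
    rw [← map_pow, QuotientGroup.mk'_apply, QuotientGroup.eq_one_iff]
    exact (mem_union hKmono).mpr ⟨i + 1, hn'⟩
  · rw [Finset.coe_image, ← MonoidHom.map_closure, hScl]
    exact Subgroup.map_top_of_surjective _ (QuotientGroup.mk'_surjective L)
  · have hRD := limit_RD S φ hC hinv hKmono (QuotientGroup.mk' L) (QuotientGroup.mk'_surjective L)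
      (QuotientGroup.ker_mk' L)
    intro n f g hf' E
    have h1 := RDsq_of_RDm hRD n f g (by
      rw [Finset.coe_image] at hf'
      exact hf') E
    have h2 : (1 + (n : ℝ)) ^ (7 : ℝ) = (1 + (n : ℝ)) ^ (7 : ℕ) := by
      rw [← Real.rpow_natCast]
      norm_num
    rw [h2]
    exact h1

end Pool.Agent.H95.RD
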