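import Pool.Agent.H95.RD.Alg

/-!
# Rapid decay passes to quotients that are injective on large balls
-/

set_option autoImplicit false
set_option linter.unusedSectionVars false
open scoped Pointwise

namespace Pool.Agent.H95.RD

open MonoidAlgebra Pool.Agent.H33.RD

variable {G : Type} [Group G]

/-! ### Balls -/

lemma ball_add (S : Set G) (m n : ℕ) : ball S m * ball S n = ball S (m + n) := by
  unfold ball
  rw [← pow_add]

lemma one_mem_ball (S : Set G) (n : ℕ) : (1 : G) ∈ ball S n := by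
  induction n with
  | zero => simp [ball]
  | succ n ih =>
    rw [← ball_add]
    refine ⟨1, ih, 1, ?_, mul_one 1⟩
    simp [ball]

lemma ball_mono (S : Set G) {m n : ℕ} (h : m ≤ n) : ball S m ⊆ ball S n := by
  obtain ⟨k, rfl⟩ := Nat.exists_eq_add_of_le h
  intro x hx
  rw [← ball_add]
  exact ⟨x, hx, 1, one_mem_ball S k, mul_one x⟩

lemma ball_inv (S : Set G) (n : ℕ) : (ball S n)⁻¹ = ball S n := by
  unfold ball
  rw [← inv_pow]
  congr 1
  rw [Set.union_inv, Set.union_inv, inv_inv]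
  simp [Set.union_comm S⁻¹ S]

lemma inv_mem_ball {S : Set G} {n : ℕ} {x : G} (h : x ∈ ball S n) : x⁻¹ ∈ ball S n := by
  rw [← ball_inv, Set.inv_mem_inv]
  exact h

lemma mul_mem_ball {S : Set G} {m n : ℕ} {x y : G} (hx : x ∈ ball S m) (hy : y ∈ ball S n) :
    x * y ∈ ball S (m + n) := by
  rw [← ball_add]
  exact ⟨x, hx, y, hy, rfl⟩

lemma image_ball {G' : Type} [Group G'] (π : G →* G') (S : Set G) (n : ℕ) :
    π '' ball S n = ball (π '' S) n := by
  unfold ball
  rw [Set.image_pow]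
  congr 1
  rw [Set.image_union, Set.image_union, Set.image_singleton, map_one]
  congr 2
  ext x
  simp only [Set.mem_image, Set.mem_inv]
  constructor
  · rintro ⟨y, hy, rfl⟩
    exact ⟨y⁻¹, hy, map_inv π y⟩
  · rintro ⟨y, hy, h⟩
    exact ⟨y⁻¹, by simpa using hy, by rw [map_inv, h, inv_inv]⟩

/-! ### Supports -/

/-- support contained in a set -/
def Sp (a : MonoidAlgebra ℝ G) (B : Set G) : Prop := (a.coeff.support : Set G) ⊆ B

lemma Sp.mul {a b : MonoidAlgebra ℝ G} {S : Set G} {m n : ℕ} (ha : Sp a (ball S m))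
    (hb : Sp b (ball S n)) : Sp (a * b) (ball S (m + n)) := by
  classical
  intro x hx
  have h := support_coeff_mul_subset a b hx
  rw [Finset.mem_mul] at h
  obtain ⟨y, hy, z, hz, rfl⟩ := h
  exact mul_mem_ball (ha hy) (hb hz)

lemma Sp.adj {a : MonoidAlgebra ℝ G} {S : Set G} {m : ℕ} (ha : Sp a (ball S m)) :
    Sp (adj a) (ball S m) := by
  classical
  intro x hx
  have h : (RD.adj a).coeff = Finsupp.mapDomain (fun x => x⁻¹) a.coeff := rfl
  rw [h] at hx
  have h2 := Finsupp.mapDomain_support hx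
  rw [Finset.mem_image] at h2
  obtain ⟨y, hy, rfl⟩ := h2
  exact inv_mem_ball (ha hy)

lemma Sp.one {S : Set G} {m : ℕ} : Sp (1 : MonoidAlgebra ℝ G) (ball S m) := by
  intro x hx
  rw [one_def, coeff_single] at hx
  have := Finsupp.support_single_subset hx
  rw [Finset.mem_singleton] at this
  rw [this]
  exact one_mem_ball S m

lemma Sp.pow {a : MonoidAlgebra ℝ G} {S : Set G} {m : ℕ} (ha : Sp a (ball S m)) (k : ℕ) :
    Sp (a ^ k) (ball S (k * m)) := by
  induction k with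
  | zero => rw [pow_zero]; exact Sp.one
  | succ k ih =>
    rw [pow_succ, Nat.succ_mul]
    exact ih.mul ha

/-! ### The rapid decay inequality -/

/-- rapid decay, group algebra version -/
def RDm (G : Type) [Group G] (S : Set G) (Φ : ℕ → ℝ) : Prop :=
  ∀ (n : ℕ) (a b : MonoidAlgebra ℝ G), Sp a (ball S n) → nrm (a * b) ≤ Φ n * nrm a * nrm b

lemma nrm_ofCoeff (f : G →₀ ℝ) : nrm (ofCoeff f) = ∑ y ∈ f.support, f y ^ 2 := by
  unfold nrm ip
  apply Finset.sum_congr rfl
  intro x _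
  rw [coeff_ofCoeff, sq]

lemma conv_apply (f g : G →₀ ℝ) (x : G) :
    (ofCoeff f * ofCoeff g : MonoidAlgebra ℝ G).coeff x = ∑ y ∈ f.support, f y * g (y⁻¹ * x) := by
  rw [coeff_mul_apply_left]
  rfl

lemma RDm_of_RDsq {S : Set G} {Φ : ℕ → ℝ} (h : RDsq G S Φ) : RDm G S Φ := by
  intro n a b ha
  have h1 := h n a.coeff b.coeff ha (a * b).coeff.support
  have e1 : nrm (a * b) =
      ∑ x ∈ (a * b).coeff.support, (∑ y ∈ a.coeff.support, a.coeff y * b.coeff (y⁻¹ * x)) ^ 2 := by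
    unfold nrm ip
    apply Finset.sum_congr rfl
    intro x _
    rw [← conv_apply]
    rw [ofCoeff_coeff, ofCoeff_coeff, sq]
  have e2 : nrm a = ∑ y ∈ a.coeff.support, a.coeff y ^ 2 := by
    rw [← nrm_ofCoeff, ofCoeff_coeff]
  have e3 : nrm b = ∑ y ∈ b.coeff.support, b.coeff y ^ 2 := by
    rw [← nrm_ofCoeff, ofCoeff_coeff]
  rw [e1, e2, e3]
  exact h1

lemma RDsq_of_RDm {S : Set G} {Φ : ℕ → ℝ} (h : RDm G S Φ) : RDsq G S Φ := by
  classical
  intro n f g hf F
  have h1 := h n (ofCoeff f) (ofCoeff g) hf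
  rw [nrm_ofCoeff f, nrm_ofCoeff g] at h1
  refine le_trans ?_ h1
  have h2 : ∀ x, (∑ y ∈ f.support, f y * g (y⁻¹ * x)) ^ 2 =
      (ofCoeff f * ofCoeff g : MonoidAlgebra ℝ G).coeff x *
        (ofCoeff f * ofCoeff g : MonoidAlgebra ℝ G).coeff x := by
    intro x
    rw [conv_apply, sq]
  simp_rw [h2]
  rw [nrm, ip_eq (s := F ∪ (ofCoeff f * ofCoeff g : MonoidAlgebra ℝ G).coeff.support)
    Finset.subset_union_right]
  apply Finset.sum_le_sum_of_subset_of_nonneg Finset.subset_union_left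
  intro x _ _
  exact mul_self_nonneg _

lemma RDm.mono {S : Set G} {Φ Ψ : ℕ → ℝ} (h : RDm G S Φ) (hle : ∀ n, Φ n ≤ Ψ n) : RDm G S Ψ := by
  intro n a b ha
  refine (h n a b ha).trans ?_
  have h1 := nrm_nonneg a
  have h2 := nrm_nonneg b
  have := hle n
  gcongr

/-! ### The transfer lemma -/

/-- the moment trick in a quotient -/
lemma transfer {G' : Type} [Group G'] (π : G →* G') {S : Set G} {Φ Ψ : ℕ → ℝ}
    (hG : RDm G S Φ) (hG' : RDm G' (π '' S) Ψ) (r j : ℕ) (hΦ : 0 ≤ Φ r) (hΨ : 0 ≤ Ψ (2 ^ j * (r + r)))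
    (hinj : ∀ x ∈ ball S (2 ^ j * (r + r)), ∀ y ∈ ball S (2 ^ j * (r + r)), π x = π y → x = y)
    {a' b' : MonoidAlgebra ℝ G'} (ha' : Sp a' (ball (π '' S) r)) :
    nrm (a' * b') ^ (2 ^ (j + 1)) ≤ Ψ (2 ^ j * (r + r)) *
      (Φ r * nrm a' * nrm b') ^ (2 ^ (j + 1)) := by
  by_cases hb : nrm b' = 0
  · rw [nrm_eq_zero hb, mul_zero]
    have : nrm (0 : MonoidAlgebra ℝ G') = 0 := ip_zero_left 0
    rw [this, mul_zero]
    simp
  have hb0 : 0 < nrm b' := lt_of_le_of_ne (nrm_nonneg b') (Ne.symm hb)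
  -- lift
  obtain ⟨a, ha, rfl⟩ := exists_lift π (ball S r) a' (by rw [image_ball]; exact ha')
  have hr : r ≤ 2 ^ j * (r + r) := by
    have : 1 ≤ 2 ^ j := Nat.one_le_two_pow
    nlinarith
  have hna : nrm (pf π a) = nrm a := by
    apply nrm_pf_inj
    intro x hx y hy
    exact hinj x (ball_mono S hr (ha hx)) y (ball_mono S hr (ha hy))
  have hc : Sp ((adj a * a) ^ (2 ^ j)) (ball S (2 ^ j * (r + r))) :=
    ((Sp.adj ha).mul ha).pow _
  have hnc : nrm ((adj (pf π a) * pf π a) ^ (2 ^ j)) = nrm ((adj a * a) ^ (2 ^ j)) := by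
    rw [← pf_adj, ← map_mul, ← map_pow]
    apply nrm_pf_inj
    intro x hx y hy
    exact hinj x (hc hx) y (hc hy)
  have hadj : nrm (adj a) = nrm a := by
    have h1 : nrm (adj a) = ip (adj a * 1) (adj a) := by rw [mul_one]; rfl
    have h2 : nrm a = ip (a * 1) a := by rw [mul_one]; rfl
    -- use the trace property
    have key : ∀ c d : MonoidAlgebra ℝ G, ip (adj c) (adj d) = ip c d := by
      intro c d
      induction c using MonoidAlgebra.induction_linear with
      | zero => rw [adj_zero, ip_zero_left, ip_zero_left]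
      | add c c' hc hc' => rw [adj_add, ip_add_left, hc, hc', ip_add_left]
      | single x s =>
        induction d using MonoidAlgebra.induction_linear with
        | zero => rw [adj_zero, ip_zero_right, ip_zero_right]
        | add d d' hd hd' => rw [adj_add, ip_add_right, hd, hd', ip_add_right]
        | single y t =>
          classical
          rw [adj_single, adj_single, ip_single_left, ip_single_left, coeff_single, coeff_single,
            Finsupp.single_apply, Finsupp.single_apply]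
          simp only [inv_inj]
    exact key a a
  have hpow : nrm ((adj a * a) ^ (2 ^ j)) ≤ (Φ r * nrm a) ^ (2 * 2 ^ j) := by
    apply nrm_pow_le (mul_nonneg hΦ (nrm_nonneg a))
    · intro x
      exact hG r a x ha
    · intro x
      have := hG r (adj a) x (Sp.adj ha)
      rwa [hadj] at this
  have hm := moment (pf π a) b' j
  have hcp : Sp ((adj (pf π a) * pf π a) ^ (2 ^ j)) (ball (π '' S) (2 ^ j * (r + r))) :=
    ((Sp.adj ha').mul ha').pow _
  have h1 := hG' _ _ b' hcp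
  rw [hnc] at h1
  have h2 : nrm (pf π a * b') ^ (2 ^ (j + 1)) * nrm b' ≤
      (Ψ (2 ^ j * (r + r)) * (Φ r * nrm a) ^ (2 * 2 ^ j) * nrm b') * nrm b' ^ (2 ^ (j + 1)) := by
    refine hm.trans (mul_le_mul_of_nonneg_right (h1.trans ?_) (pow_nonneg hb0.le _))
    exact mul_le_mul_of_nonneg_right (mul_le_mul_of_nonneg_left hpow hΨ) hb0.le
  have h3 : (Ψ (2 ^ j * (r + r)) * (Φ r * nrm a) ^ (2 * 2 ^ j) * nrm b') * nrm b' ^ (2 ^ (j + 1)) =
      (Ψ (2 ^ j * (r + r)) * (Φ r * nrm a * nrm b') ^ (2 ^ (j + 1))) * nrm b' := by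
    rw [mul_pow (Φ r * nrm a), ← pow_succ']
    ring
  rw [h3] at h2
  rw [hna]
  exact le_of_mul_le_mul_right h2 hb0

/-- growth comparison -/
lemma exists_j (A : ℝ) (r₀ : ℕ) {ε : ℝ} (hε : 0 < ε) :
    ∃ j : ℕ, ∀ r ≤ r₀, |A| * (1 + ((2 ^ j * (r + r) : ℕ) : ℝ)) ^ 6 ≤ (1 + ε) ^ (2 ^ (j + 1)) := by
  have hlim : Filter.Tendsto (fun m : ℕ => |A| * (1 + (m : ℝ) * (2 * r₀)) ^ 6 / (1 + ε) ^ m)
      Filter.atTop (nhds 0) := by
    have h1 : 1 < 1 + ε := by linarith
    have h0 : ∀ k : ℕ, Filter.Tendsto (fun m : ℕ => (m : ℝ) ^ k / (1 + ε) ^ m) Filter.atTop (nhds 0) :=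
      fun k => tendsto_pow_const_div_const_pow_of_one_lt k h1
    have e : (fun m : ℕ => |A| * (1 + (m : ℝ) * (2 * r₀)) ^ 6 / (1 + ε) ^ m) = fun m : ℕ =>
        ∑ k ∈ Finset.range 7, (|A| * ((Nat.choose 6 k : ℕ) : ℝ) * (2 * r₀) ^ k) *
          ((m : ℝ) ^ k / (1 + ε) ^ m) := by
      funext m
      rw [add_comm (1 : ℝ), add_pow, Finset.mul_sum, Finset.sum_div]
      apply Finset.sum_congr rfl
      intro k _
      rw [one_pow, mul_one, mul_pow]
      ring
    rw [e]
    have : (0 : ℝ) = ∑ k ∈ Finset.range 7, (|A| * ((Nat.choose 6 k : ℕ) : ℝ) * (2 * r₀) ^ k) * 0 := by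
      simp
    rw [this]
    apply tendsto_finsetSum
    intro k _
    exact (h0 k).const_mul _
  have hev := hlim.eventually_lt_const (show (0 : ℝ) < 1 by norm_num)
  have hpow : Filter.Tendsto (fun j : ℕ => 2 ^ j) Filter.atTop Filter.atTop :=
    tendsto_pow_atTop_atTop_of_one_lt (by norm_num)
  obtain ⟨j, hj⟩ := (hpow.eventually hev).exists
  refine ⟨j, fun r hr => ?_⟩
  have hp : (0 : ℝ) < (1 + ε) ^ (2 ^ j) := by positivity
  rw [div_lt_one hp] at hj
  have h2 : (1 + ε) ^ (2 ^ j) ≤ (1 + ε) ^ (2 ^ (j + 1)) := by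
    apply pow_le_pow_right₀ (by linarith)
    rw [pow_succ]
    omega
  refine le_trans ?_ (hj.le.trans h2)
  have hr' : (r : ℝ) ≤ r₀ := by exact_mod_cast hr
  push_cast
  gcongr
  linarith

/-- the step of the construction -/
theorem step (A : ℝ) {C C' : ℝ} (hC : 1 ≤ C) (hCC : C < C') :
    ∃ R : ℕ, ∀ (G : Type) [Group G] (G' : Type) [Group G'] (π : G →* G') (S : Set G),
      RDm G S (fun r => C * (1 + (r : ℝ)) ^ 7) → RDm G' (π '' S) (fun r => A * (1 + (r : ℝ)) ^ 6) →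
      (∀ x ∈ ball S R, ∀ y ∈ ball S R, π x = π y → x = y) →
      RDm G' (π '' S) (fun r => C' * (1 + (r : ℝ)) ^ 7) := by
  obtain ⟨r₀, hr₀⟩ := exists_nat_ge |A|
  have hC0 : 0 < C := by linarith
  set ε : ℝ := C' / C - 1 with hε
  have hε0 : 0 < ε := by
    rw [hε, sub_pos, lt_div_iff₀ hC0]
    linarith
  obtain ⟨j, hj⟩ := exists_j A r₀ hε0
  refine ⟨2 ^ j * (r₀ + r₀), ?_⟩
  intro G _ G' _ π S hG hG' hinj
  have hG'' : RDm G' (π '' S) (fun r => |A| * (1 + (r : ℝ)) ^ 6) :=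
    hG'.mono fun n => mul_le_mul_of_nonneg_right (le_abs_self A) (by positivity)
  intro r a' b' ha'
  have hna := nrm_nonneg a'
  have hnb := nrm_nonneg b'
  by_cases hr : r ≤ r₀
  · have hball : ball S (2 ^ j * (r + r)) ⊆ ball S (2 ^ j * (r₀ + r₀)) := by
      apply ball_mono
      gcongr
    have h1 := transfer π hG hG'' r j (by positivity) (by positivity)
      (fun x hx y hy => hinj x (hball hx) y (hball hy)) (b' := b') ha'
    have h2 : nrm (a' * b') ^ (2 ^ (j + 1)) ≤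
        ((1 + ε) * (C * (1 + (r : ℝ)) ^ 7 * nrm a' * nrm b')) ^ (2 ^ (j + 1)) := by
      refine h1.trans ?_
      rw [mul_pow (1 + ε)]
      exact mul_le_mul_of_nonneg_right (hj r hr) (by positivity)
    have h3 := (pow_le_pow_iff_left₀ (nrm_nonneg _) (by positivity)
      (pow_ne_zero _ (by norm_num))).mp h2
    refine h3.trans (le_of_eq ?_)
    rw [hε]
    field_simp
    ring
  · push Not at hr
    refine (hG'' r a' b' ha').trans ?_
    have h1 : |A| * (1 + (r : ℝ)) ^ 6 ≤ C' * (1 + (r : ℝ)) ^ 7 := by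
      have h2 : |A| ≤ C' * (1 + (r : ℝ)) := by
        have h3 : (r₀ : ℝ) < r := by exact_mod_cast hr
        have h4 : 1 ≤ C' := by linarith
        have h5 : (0 : ℝ) ≤ r := Nat.cast_nonneg r
        nlinarith
      calc |A| * (1 + (r : ℝ)) ^ 6 ≤ C' * (1 + (r : ℝ)) * (1 + (r : ℝ)) ^ 6 :=
            mul_le_mul_of_nonneg_right h2 (by positivity)
        _ = _ := by ring
    gcongr

end Pool.Agent.H95.RD
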